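import Pool.Agent.W710.DP.Stm2

set_option autoImplicit false

namespace Pool.Agent.W293.DP

open Pool.Agent.W710.DP

theorem norm_E (x s : ℝ) : ‖E x s‖ = Real.sqrt (s / Real.pi) := by
  unfold E
  rw [norm_mul, Complex.norm_real, Real.norm_of_nonneg (Real.sqrt_nonneg _)]
  have h : Complex.exp (2 * Real.pi * x * Complex.I) =
      Complex.exp (((2 * Real.pi * x : ℝ) : ℂ) * Complex.I) := by
    congr 1
    push_cast
    ring
  rw [h, Complex.norm_exp_ofReal_mul_I, mul_one]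

theorem ar_E (x s : ℝ) (hs : 0 ≤ s) : ar (E x s) = s := by
  unfold ar
  rw [norm_E, Real.sq_sqrt (div_nonneg hs Real.pi_pos.le)]
  field_simp

/-- derivative of `E` along a curve -/
theorem hasDeriv_E {X S : ℝ → ℝ} {X₁ S₁ t : ℝ} (hX : HasDerivAt X X₁ t)
    (hS : HasDerivAt S S₁ t) (h0 : 0 < S t) :
    HasDerivAt (fun τ => E (X τ) (S τ))
      (((S₁ / (2 * S t) : ℝ) : ℂ) * E (X t) (S t) +
        (2 * Real.pi * X₁ * Complex.I) * E (X t) (S t)) t := by
  unfold E
  have hpi := Real.pi_pos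
  have h1 : HasDerivAt (fun τ => Real.sqrt (S τ / Real.pi))
      ((S₁ / Real.pi) / (2 * Real.sqrt (S t / Real.pi))) t :=
    (hS.div_const Real.pi).sqrt (by positivity)
  have h2 := h1.ofReal_comp
  have h3 : HasDerivAt (fun τ => Complex.exp (2 * Real.pi * (X τ : ℂ) * Complex.I))
      (Complex.exp (2 * Real.pi * (X t : ℂ) * Complex.I) *
        (2 * Real.pi * (X₁ : ℂ) * Complex.I)) t := by
    have h4 : HasDerivAt (fun τ => (2 * Real.pi * (X τ : ℂ) * Complex.I))
        (2 * Real.pi * (X₁ : ℂ) * Complex.I) t :=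
      ((hX.ofReal_comp).const_mul (2 * (Real.pi : ℂ))).mul_const Complex.I
    exact h4.cexp
  have h5 := h2.mul h3
  refine h5.congr_deriv ?_
  have h6 : (((S₁ / Real.pi / (2 * Real.sqrt (S t / Real.pi)) : ℝ)) : ℂ) =
      ((S₁ / (2 * S t) : ℝ) : ℂ) * ((Real.sqrt (S t / Real.pi) : ℝ) : ℂ) := by
    rw [← Complex.ofReal_mul]
    congr 1
    have h7 : Real.sqrt (S t / Real.pi) * Real.sqrt (S t / Real.pi) = S t / Real.pi :=
      Real.mul_self_sqrt (by positivity)
    have h8 : 0 < Real.sqrt (S t / Real.pi) := Real.sqrt_pos.2 (by positivity)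
    have h9 : S t = Real.pi * (Real.sqrt (S t / Real.pi) * Real.sqrt (S t / Real.pi)) := by
      rw [h7]
      field_simp
    generalize Real.sqrt (S t / Real.pi) = q at *
    rw [h9]
    field_simp
  rw [h6]
  ring

theorem t_ang : S_ang := by
  intro X S γ t X₁ S₁ γ₁ hX hS hγ h0 hev
  have hE := hasDeriv_E hX hS h0
  have h1 : E (X t) (S t) = γ t := hev.self_of_nhds
  have h2 : HasDerivAt γ (((S₁ / (2 * S t) : ℝ) : ℂ) * E (X t) (S t) +
        (2 * Real.pi * X₁ * Complex.I) * E (X t) (S t)) t :=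
    hE.congr_of_eventuallyEq (hev.mono fun τ h => h.symm)
  have h3 := hγ.unique h2
  have h4 : S t = ar (γ t) := by rw [← h1, ar_E _ _ h0.le]
  refine ⟨h4, ?_⟩
  rw [h3, h1]
  have h5 : (starRingEnd ℂ) (γ t) * (((S₁ / (2 * S t) : ℝ) : ℂ) * γ t +
      2 * Real.pi * X₁ * Complex.I * γ t) =
      ((‖γ t‖ ^ 2 : ℝ) : ℂ) * (((S₁ / (2 * S t) : ℝ) : ℂ) + ((2 * Real.pi * X₁ : ℝ) : ℂ) *
        Complex.I) := by
    have h6 : (starRingEnd ℂ) (γ t) * γ t = ((‖γ t‖ ^ 2 : ℝ) : ℂ) := by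
      rw [mul_comm, Complex.mul_conj, Complex.normSq_eq_norm_sq]
    rw [← h6]
    push_cast
    ring
  rw [h5, Complex.im_ofReal_mul]
  simp only [Complex.add_im, Complex.ofReal_im, Complex.mul_im, Complex.ofReal_re, Complex.I_im,
    Complex.I_re, mul_one, mul_zero, add_zero, zero_add]
  rw [h4]
  unfold ar
  ring

end Pool.Agent.W293.DP
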