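import Pool.Agent.W710.DP.Stm2
import Pool.Agent.W293.DP.Ang

set_option autoImplicit false

namespace Pool.Agent.W293.DP

open Pool.Agent.W710.DP Set

/-- function with zero derivative on an open interval -/
theorem const_of_deriv_zero {f : ℝ → ℝ} {α β : ℝ}
    (h : ∀ t ∈ Ioo α β, HasDerivAt f 0 t) {u v : ℝ} (hu : u ∈ Ioo α β) (hv : v ∈ Ioo α β) :
    f v = f u := by
  have h1 := Convex.norm_image_sub_le_of_norm_hasDerivWithin_le (f := f) (f' := fun _ => 0)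
    (C := 0) (s := Ioo α β) (x := u) (y := v) (fun t ht => (h t ht).hasDerivWithinAt)
    (fun t _ => by simp) (convex_Ioo α β) hu hv
  rw [zero_mul] at h1
  have h2 := norm_le_zero_iff.1 h1
  linarith

/-- `E x0` along the radial curve -/
theorem hasDeriv_rad (x0 t : ℝ) (ht : 0 < t) :
    HasDerivAt (fun τ => E x0 τ) (((1 / (2 * t) : ℝ) : ℂ) * E x0 t) t := by
  have h := hasDeriv_E (X := fun _ => x0) (S := fun τ => τ) (hasDerivAt_const t x0)
    (hasDerivAt_id t) ht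
  refine h.congr_deriv ?_
  simp

/-- curves in the strip over the same plane curve -/
theorem ang_two (h2 : S_ang) {X S Y : ℝ → ℝ} {γ : ℝ → ℂ} {t X₁ S₁ Y₁ : ℝ} {γ₁ : ℂ}
    (hX : HasDerivAt X X₁ t) (hS : HasDerivAt S S₁ t) (hγ : HasDerivAt γ γ₁ t) (h0 : 0 < S t)
    (hev : ∀ᶠ τ in nhds t, E (X τ) (S τ) = γ τ) (ht : 0 < t) (hY : HasDerivAt Y Y₁ t)
    (hev2 : ∀ᶠ τ in nhds t, E (Y τ) τ = γ τ) : S t = t ∧ X₁ = Y₁ := by
  obtain ⟨a1, a2⟩ := h2 X S γ t X₁ S₁ γ₁ hX hS hγ h0 hev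
  obtain ⟨b1, b2⟩ := h2 Y (fun τ => τ) γ t Y₁ 1 γ₁ hY (hasDerivAt_id t) hγ ht hev2
  have h3 : S t = t := by rw [a1, ← b1]
  refine ⟨h3, ?_⟩
  have h4 : S t * X₁ = t * Y₁ := by rw [a2, ← b2]
  rw [h3] at h4
  exact mul_left_cancel₀ ht.ne' h4

theorem t_evid (h1 : S_orb) (h2 : S_ang) : S_evid := by
  intro b T e R w hPar hG hbR hreal ζ hcrit
  obtain ⟨he, heb, hTe⟩ := hPar
  have hb : 0 < b := lt_trans he heb
  obtain ⟨c, hc, hr⟩ := hreal
  obtain ⟨X, S, A, X₁, S₁, h⟩ := hr 0 R (fun _ => ζ.1 0) (fun t => t) (fun _ => 0) (fun _ => 1)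
    (by
      intro t ht
      refine ⟨hasDerivAt_const t _, hasDerivAt_id t, ht.1, ?_⟩
      show ar (E (ζ.1 0) t) < R
      rw [ar_E _ _ ht.1.le]
      exact ht.2)
  have hkey : ∀ t ∈ Ioo 0 R, S t = t ∧ X₁ t = 0 := by
    intro t ht
    obtain ⟨a1, a2, a3, a4, a5, a6, a7⟩ := h t ht
    refine ang_two h2 a1 a2 (hasDeriv_rad (ζ.1 0) t ht.1) a3 ?_ ht.1
      (hasDerivAt_const t (ζ.1 0)) (Filter.Eventually.of_forall fun τ => rfl)
    filter_upwards [isOpen_Ioo.mem_nhds ht] with τ hτ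
    exact (h τ hτ).2.2.2.2.2.1
  have hmem : b ∈ Ioo 0 R := ⟨hb, hbR⟩
  set t0 := min c b / 2 with ht0
  have hm : 0 < min c b := lt_min hc hb
  have ht0mem : t0 ∈ Ioo 0 R := ⟨by positivity, by
    have : min c b ≤ b := min_le_right _ _
    rw [ht0]
    linarith⟩
  have ht0c : t0 < c := by
    have : min c b ≤ c := min_le_left _ _
    rw [ht0]
    linarith
  have hXc : X b = X t0 := const_of_deriv_zero (f := X) (fun t ht => by
    have := (h t ht).1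
    rw [(hkey t ht).2] at this
    exact this) ht0mem hmem
  have hAc : A b = A t0 := const_of_deriv_zero (f := A) (fun t ht => by
    have := (h t ht).2.2.2.1
    rw [(hkey t ht).2, mul_zero, mul_zero, sub_zero] at this
    exact this) ht0mem hmem
  obtain ⟨c1, c2, c3⟩ := (h t0 ht0mem).2.2.2.2.2.2 ht0c
  have hOrb := (h b hmem).2.2.2.2.1
  have hO2 := h1.1 b w ζ hcrit
  obtain ⟨d1, d2, d3⟩ := h1.2 T e w hG _ _ _ _ _ _ _ _ hOrb hO2
  rw [hXc, c1] at d1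
  rw [hAc, c3, ← d1] at d3
  linarith

end Pool.Agent.W293.DP
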