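import Pool.Agent.W710.DP.Stm2
import Pool.Agent.W293.DP.Ang
import Pool.Agent.W293.DP.Evid

set_option autoImplicit false

namespace Pool.Agent.W293.DP

open Pool.Agent.W710.DP Set

theorem twist_E (x t : ℝ) (ht : 0 ≤ t) : twist (E x t) = E (x + 2 * t) t := by
  unfold twist
  rw [ar_E x t ht]
  unfold E
  rw [mul_assoc, ← Complex.exp_add]
  congr 2
  push_cast
  ring

/-- the test function for the derivative of the action -/
noncomputable def hh (g : ℂ → ℂ) (z : ℂ) : ℝ :=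
  ((starRingEnd ℂ) (g z) * (fderiv ℝ g z (((1 / (2 * ar z) : ℝ) : ℂ) * z))).im / 2

theorem continuous_ar : Continuous ar := by
  unfold ar
  fun_prop

theorem bound_hh (g : Equiv.Perm ℂ) (hg : AP g) (h0 : g 0 = 0) (r s1 : ℝ) (hr : 0 < r) :
    ∃ C1 C2 : ℝ, ∀ z : ℂ, r ≤ ‖z‖ → ar z ≤ s1 → |hh g z| ≤ C1 ∧ |hh g z / ar (g z)| ≤ C2 := by
  have hpi := Real.pi_pos
  set K : Set ℂ := {z | r ≤ ‖z‖ ∧ ar z ≤ s1} with hK
  have hKc : IsCompact K := by
    have hcl : IsClosed K := by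
      have e : K = {z | r ≤ ‖z‖} ∩ {z | ar z ≤ s1} := rfl
      rw [e]
      exact (isClosed_le continuous_const continuous_norm).inter
        (isClosed_le continuous_ar continuous_const)
    refine Metric.isCompact_of_isClosed_isBounded hcl ?_
    refine (Metric.isBounded_closedBall (x := (0 : ℂ)) (r := |s1| / Real.pi + 1)).subset ?_
    intro z hz
    have h1 : Real.pi * ‖z‖ ^ 2 ≤ s1 := hz.2
    rw [mem_closedBall_zero_iff]
    have h2 : ‖z‖ ^ 2 ≤ |s1| / Real.pi := by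
      rw [le_div_iff₀ hpi]
      have := le_abs_self s1
      linarith
    nlinarith [sq_nonneg (‖z‖ - 1), norm_nonneg z, sq_nonneg (‖z‖)]
  have hne : ∀ z ∈ K, 0 < ar z := by
    intro z hz
    unfold ar
    have : 0 < ‖z‖ := lt_of_lt_of_le hr hz.1
    positivity
  have hgne : ∀ z ∈ K, 0 < ar (g z) := by
    intro z hz
    unfold ar
    have h1 : 0 < ‖z‖ := lt_of_lt_of_le hr hz.1
    have h2 : g z ≠ 0 := by
      intro h3
      have : z = 0 := g.injective (h3.trans h0.symm)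
      rw [this, norm_zero] at h1
      exact lt_irrefl _ h1
    have : 0 < ‖g z‖ := norm_pos_iff.2 h2
    positivity
  have hgc : Continuous g := hg.1.continuous
  have hfd : Continuous (fderiv ℝ g) := hg.1.continuous_fderiv (by simp)
  have hcont : ContinuousOn (hh g) K := by
    unfold hh
    have c1 : ContinuousOn (fun z : ℂ => (((1 / (2 * ar z) : ℝ) : ℂ) * z)) K := by
      have c2 : ContinuousOn (fun z : ℂ => (1 / (2 * ar z) : ℝ)) K := by
        refine continuousOn_const.div (continuous_ar.continuousOn.const_smul (2 : ℝ) |>.congr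
          (fun z _ => by simp)) ?_
        intro z hz
        have := hne z hz
        positivity
      exact (Complex.continuous_ofReal.comp_continuousOn c2).mul continuousOn_id
    have c3 : ContinuousOn (fun z : ℂ => fderiv ℝ g z (((1 / (2 * ar z) : ℝ) : ℂ) * z)) K :=
      hfd.continuousOn.clm_apply c1
    have c4 : ContinuousOn (fun z : ℂ => (starRingEnd ℂ) (g z)) K :=
      (Complex.continuous_conj.comp hgc).continuousOn
    exact (Complex.continuous_im.comp_continuousOn (c4.mul c3)).div_const 2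
  obtain ⟨C1, hC1⟩ := hKc.exists_bound_of_continuousOn hcont
  have hcont2 : ContinuousOn (fun z => hh g z / ar (g z)) K :=
    hcont.div (continuous_ar.comp hgc).continuousOn (fun z hz => (hgne z hz).ne')
  obtain ⟨C2, hC2⟩ := hKc.exists_bound_of_continuousOn hcont2
  exact ⟨C1, C2, fun z h1 h2 => ⟨hC1 z ⟨h1, h2⟩, hC2 z ⟨h1, h2⟩⟩⟩

theorem t_evtw (h1 : S_orb) (h2 : S_ang) : S_evtw := by
  intro g hg hid s1 hs1 htw
  obtain ⟨r, hr, hrid⟩ := hid
  have hpi := Real.pi_pos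
  have hg0 : g 0 = 0 := hrid 0 (by simpa using hr)
  obtain ⟨C1', C2', hC⟩ := bound_hh g hg hg0 r s1 hr
  set C1 := max C1' 0 with hC1
  set C2 := max C2' 0 with hC2
  have hC1n : 0 ≤ C1 := le_max_right _ _
  have hC2n : 0 ≤ C2 := le_max_right _ _
  refine ⟨C1 * s1 + 2 * s1 + C2 * s1, ?_⟩
  intro b T e R w hPar hG hs1b hbR hreal ζ hcrit
  obtain ⟨he, heb, hTe⟩ := hPar
  have hb : 0 < b := lt_trans he heb
  obtain ⟨c, hc, hrr⟩ := hreal
  set x0 := ζ.1 0 with hx0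
  obtain ⟨X, S, A, X₁, S₁, h⟩ := hrr 0 R (fun _ => x0) (fun t => t) (fun _ => 0) (fun _ => 1)
    (by
      intro t ht
      refine ⟨hasDerivAt_const t _, hasDerivAt_id t, ht.1, ?_⟩
      show ar (E x0 t) < R
      rw [ar_E _ _ ht.1.le]
      exact ht.2)
  -- the plane curve
  have hev : ∀ t ∈ Ioo 0 R, ∀ᶠ τ in nhds t, E (X τ) (S τ) = g (E x0 τ) := by
    intro t ht
    filter_upwards [isOpen_Ioo.mem_nhds ht] with τ hτ
    exact (h τ hτ).2.2.2.2.2.1
  have hγ : ∀ t ∈ Ioo 0 R, HasDerivAt (fun τ => g (E x0 τ))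
      (fderiv ℝ g (E x0 t) (((1 / (2 * t) : ℝ) : ℂ) * E x0 t)) t := by
    intro t ht
    have hd : HasFDerivAt g (fderiv ℝ g (E x0 t)) (E x0 t) :=
      (hg.1.differentiable (by simp)).differentiableAt.hasFDerivAt
    exact hd.comp_hasDerivAt t (hasDeriv_rad x0 t ht.1)
  -- derivative bounds
  have hbd : ∀ t ∈ Ioo 0 R, t ≤ s1 → |S t * X₁ t| ≤ C1 ∧ |X₁ t| ≤ C2 := by
    intro t ht hts
    obtain ⟨a1, a2, a3, a4, a5, a6, a7⟩ := h t ht
    by_cases hsm : ‖E x0 t‖ < r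
    · have hev2 : ∀ᶠ τ in nhds t, E x0 τ = g (E x0 τ) := by
        have hcont : ContinuousAt (fun τ => ‖E x0 τ‖) t :=
          (hasDeriv_rad x0 t ht.1).continuousAt.norm
        filter_upwards [hcont.eventually_lt continuousAt_const hsm] with τ hτ
        exact (hrid _ hτ).symm
      obtain ⟨b1, b2⟩ := ang_two h2 a1 a2 (hγ t ht) a3 (hev t ht) ht.1
        (hasDerivAt_const t x0) hev2
      rw [b2]
      simp [hC1n, hC2n]
    · rw [not_lt] at hsm
      obtain ⟨b1, b2⟩ := h2 X S _ t _ _ _ a1 a2 (hγ t ht) a3 (hev t ht)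
      have har : ar (E x0 t) = t := ar_E _ _ ht.1.le
      obtain ⟨d1, d2⟩ := hC (E x0 t) hsm (by rw [har]; exact hts)
      have e1 : hh g (E x0 t) = S t * X₁ t := by
        unfold hh
        rw [har, b2]
      rw [e1] at d1 d2
      refine ⟨d1.trans (le_max_left _ _), ?_⟩
      have e2 : S t * X₁ t / ar (g (E x0 t)) = X₁ t := by
        have : ar (g (E x0 t)) = S t := b1.symm
        rw [this]
        field_simp
      rw [e2] at d2
      exact d2.trans (le_max_left _ _)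
  -- after s1
  have haft : ∀ t ∈ Ioo s1 R, S t = t ∧ X₁ t = 2 := by
    intro t ht
    have ht' : t ∈ Ioo 0 R := ⟨hs1.trans ht.1, ht.2⟩
    obtain ⟨a1, a2, a3, a4, a5, a6, a7⟩ := h t ht'
    have hev2 : ∀ᶠ τ in nhds t, E (x0 + 2 * τ) τ = g (E x0 τ) := by
      filter_upwards [isOpen_Ioo.mem_nhds ht] with τ hτ
      have hτ0 : 0 ≤ τ := (hs1.trans hτ.1).le
      rw [htw (E x0 τ) (by rw [ar_E _ _ hτ0]; exact hτ.1.le), twist_E _ _ hτ0]
    have hY : HasDerivAt (fun τ : ℝ => x0 + 2 * τ) 2 t := by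
      simpa using ((hasDerivAt_id t).const_mul 2).const_add x0
    exact ang_two h2 a1 a2 (hγ t ht') a3 (hev t ht') ht'.1 hY hev2
  set t0 := min c s1 / 2 with ht0
  have hm : 0 < min c s1 := lt_min hc hs1
  have ht0s : t0 < s1 := by
    have : min c s1 ≤ s1 := min_le_right _ _
    rw [ht0]
    linarith
  have ht0p : 0 < t0 := by positivity
  have ht0mem : t0 ∈ Ioo 0 R := ⟨ht0p, by linarith⟩
  have ht0c : t0 < c := by
    have : min c s1 ≤ c := min_le_left _ _
    rw [ht0]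
    linarith
  obtain ⟨c1, c2, c3⟩ := (h t0 ht0mem).2.2.2.2.2.2 ht0c
  have hsub : ∀ t ∈ Icc t0 b, t ∈ Ioo 0 R := fun t ht => ⟨lt_of_lt_of_le ht0p ht.1,
    lt_of_le_of_lt ht.2 hbR⟩
  have hXd : ∀ t ∈ Icc t0 b, HasDerivAt X (X₁ t) t := fun t ht => (h t (hsub t ht)).1
  have hAd : ∀ t ∈ Icc t0 b, HasDerivAt A (S t * X₁ t) t := fun t ht => by
    have := (h t (hsub t ht)).2.2.2.1
    rw [mul_zero, sub_zero] at this
    exact this
  -- up to s1
  have hXs1 : |X s1 - x0| ≤ C2 * s1 := by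
    have hx := Convex.norm_image_sub_le_of_norm_hasDerivWithin_le (f := X) (f' := X₁)
      (C := C2) (s := Icc t0 s1) (x := t0) (y := s1)
      (fun t ht => (hXd t ⟨ht.1, ht.2.trans hs1b.le⟩).hasDerivWithinAt)
      (fun t ht => (hbd t (hsub t ⟨ht.1, ht.2.trans hs1b.le⟩) ht.2).2)
      (convex_Icc _ _) ⟨le_rfl, ht0s.le⟩ ⟨ht0s.le, le_rfl⟩
    rw [c1, Real.norm_eq_abs, Real.norm_eq_abs, abs_of_pos (by linarith : 0 < s1 - t0)] at hx
    nlinarith
  have hAs1 : |A s1| ≤ C1 * s1 := by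
    have hx := Convex.norm_image_sub_le_of_norm_hasDerivWithin_le (f := A)
      (f' := fun t => S t * X₁ t)
      (C := C1) (s := Icc t0 s1) (x := t0) (y := s1)
      (fun t ht => (hAd t ⟨ht.1, ht.2.trans hs1b.le⟩).hasDerivWithinAt)
      (fun t ht => (hbd t (hsub t ⟨ht.1, ht.2.trans hs1b.le⟩) ht.2).1)
      (convex_Icc _ _) ⟨le_rfl, ht0s.le⟩ ⟨ht0s.le, le_rfl⟩
    rw [c3, sub_zero, Real.norm_eq_abs, Real.norm_eq_abs,
      abs_of_pos (by linarith : 0 < s1 - t0)] at hx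
    nlinarith
  -- from s1 to b
  have hXb : X b = X s1 + 2 * (b - s1) := by
    obtain ⟨ξ, hξ, hξe⟩ := exists_hasDerivAt_eq_slope (fun t => X t - 2 * t)
      (fun t => X₁ t - 2 * 1) hs1b
      (fun t ht => ((hXd t ⟨ht0s.le.trans ht.1, ht.2⟩).sub
        ((hasDerivAt_id t).const_mul 2)).continuousAt.continuousWithinAt)
      (fun t ht => (hXd t ⟨ht0s.le.trans ht.1.le, ht.2.le⟩).sub
        ((hasDerivAt_id t).const_mul 2))
    rw [(haft ξ ⟨hξ.1, hξ.2.trans hbR⟩).2] at hξe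
    have hne : b - s1 ≠ 0 := by linarith
    rw [eq_div_iff hne] at hξe
    linarith
  have hAb : A b = A s1 + (b ^ 2 - s1 ^ 2) := by
    obtain ⟨ξ, hξ, hξe⟩ := exists_hasDerivAt_eq_slope (fun t => A t - t ^ 2)
      (fun t => S t * X₁ t - 2 * t) hs1b
      (fun t ht => ((hAd t ⟨ht0s.le.trans ht.1, ht.2⟩).sub
        (by simpa using hasDerivAt_pow 2 t)).continuousAt.continuousWithinAt)
      (fun t ht => (hAd t ⟨ht0s.le.trans ht.1.le, ht.2.le⟩).sub
        (by simpa using hasDerivAt_pow 2 t))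
    rw [(haft ξ ⟨hξ.1, hξ.2.trans hbR⟩).2, (haft ξ ⟨hξ.1, hξ.2.trans hbR⟩).1] at hξe
    have hne : b - s1 ≠ 0 := by linarith
    rw [eq_div_iff hne] at hξe
    linarith
  have hmem : b ∈ Ioo 0 R := ⟨hb, hbR⟩
  have hOrb := (h b hmem).2.2.2.2.1
  have hO2 := h1.1 b w ζ hcrit
  obtain ⟨d1, d2, d3⟩ := h1.2 T e w hG _ _ _ _ _ _ _ _ hOrb hO2
  rw [← d1, hXb, hAb, ← hx0] at d3
  have hA1 := (abs_le.1 hAs1).2
  have hX1 := (abs_le.1 hXs1).1
  have hX2 : -(b * (C2 * s1)) ≤ b * (X s1 - x0) := by nlinarith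
  have e1 : Sw b w ζ = A s1 + (b ^ 2 - s1 ^ 2) - b * (X s1 + 2 * (b - s1) - x0) := by linarith
  rw [e1]
  have e2 : 0 ≤ C1 * s1 * b := by positivity
  have e3 : 0 ≤ C2 * s1 := by positivity
  have e4 : 0 ≤ s1 ^ 2 := by positivity
  nlinarith

end Pool.Agent.W293.DP
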