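import Pool.Agent.W710.DP.Stm2

set_option autoImplicit false

namespace Pool.Agent.W293.DP

open Pool.Agent.W710.DP

/-- recursion form of the critical equations -/
def CR : ℝ → List Letter → Cfg → Prop
  | _, [], _ => True
  | σ, l :: w, ζ => σ = ζ.2 0 + l.gx (ζ.1 0) (ζ.2 0) ∧ ζ.1 1 = ζ.1 0 + l.gs (ζ.1 0) (ζ.2 0) ∧
      CR (ζ.2 0) w (shc 1 ζ)

/-- last value -/
def fin : ℝ → List Letter → Cfg → ℝ
  | σ, [], _ => σ
  | _, _ :: w, ζ => fin (ζ.2 0) w (shc 1 ζ)

theorem cr_orb (b : ℝ) : ∀ (w : List Letter) (σ : ℝ) (ζ : Cfg), CR σ w ζ →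
    Orb w (ζ.1 0) σ (ζ.1 w.length) (fin σ w ζ) (Sw b w ζ + b * (ζ.1 w.length - ζ.1 0))
  | [], σ, ζ, _ => by simp [Orb, fin, Sw]
  | l :: w, σ, ζ, h => by
      obtain ⟨h1, h2, h3⟩ := h
      refine ⟨ζ.1 1, ζ.2 0, h1, h2, ?_⟩
      have ih := cr_orb b w (ζ.2 0) (shc 1 ζ) h3
      have e1 : (shc 1 ζ).1 0 = ζ.1 1 := rfl
      have e2 : (shc 1 ζ).1 w.length = ζ.1 (l :: w).length := rfl
      rw [e1, e2] at ih
      have e3 : Sw b (l :: w) ζ + b * (ζ.1 (l :: w).length - ζ.1 0) -
          (ζ.2 0 * (ζ.1 1 - ζ.1 0) - l.G (ζ.1 0) (ζ.2 0)) =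
          Sw b w (shc 1 ζ) + b * (ζ.1 (l :: w).length - ζ.1 1) := by
        simp only [Sw]
        ring
      rw [e3]
      exact ih

theorem crit_cr : ∀ (w : List Letter) (σ : ℝ) (ζ : Cfg),
    (∀ i < w.length, (if i = 0 then σ else ζ.2 (i - 1)) - ζ.2 i -
      (lt w i).gx (ζ.1 i) (ζ.2 i) = 0) → (∀ i < w.length, gradS w ζ i = 0) →
    CR σ w ζ ∧ fin σ w ζ = if w.length = 0 then σ else ζ.2 (w.length - 1)
  | [], σ, ζ, _, _ => by simp [CR, fin]
  | l :: w, σ, ζ, hx, hs => by
      have hx0 := hx 0 (by simp)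
      have hs0 := hs 0 (by simp)
      simp only [lt, gradS, List.getD_cons_zero, if_true] at hx0 hs0
      have ih := crit_cr w (ζ.2 0) (shc 1 ζ) (by
          intro i hi
          have h := hx (i + 1) (by simpa using hi)
          simp only [lt, List.getD_cons_succ, Nat.succ_ne_zero, if_false,
            Nat.add_sub_cancel] at h
          rcases Nat.eq_zero_or_pos i with h0 | h0
          · subst h0
            simpa [shc, lt] using h
          · rw [if_neg (by omega)]
            have e : (shc 1 ζ).2 (i - 1) = ζ.2 i := by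
              have e' : i - 1 + 1 = i := by omega
              show ζ.2 (i - 1 + 1) = ζ.2 i
              rw [e']
            rw [e]
            exact h) (by
          intro i hi
          have h := hs (i + 1) (by simpa using hi)
          simp only [gradS, lt, List.getD_cons_succ] at h
          exact h)
      refine ⟨⟨by linarith, ?_, ih.1⟩, ?_⟩
      · have := hs0
        norm_num at this
        linarith
      · rw [if_neg (by simp)]
        show fin (ζ.2 0) w (shc 1 ζ) = _
        rw [ih.2]
        rcases Nat.eq_zero_or_pos w.length with h0 | h0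
        · rw [if_pos h0]
          simp [h0]
        · rw [if_neg (by omega)]
          have e' : w.length - 1 + 1 = (l :: w).length - 1 := by
            rw [List.length_cons]
            omega
          show ζ.2 (w.length - 1 + 1) = ζ.2 ((l :: w).length - 1)
          rw [e']

theorem orb_unique (T e : ℝ) : ∀ (w : List Letter), GoodW T e w →
    ∀ x s X S A X' S' A' : ℝ, Orb w x s X S A → Orb w x s X' S' A' → X = X' ∧ S = S' ∧ A = A'
  | [], _, x, s, X, S, A, X', S', A', h1, h2 => by
      obtain ⟨a1, a2, a3⟩ := h1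
      obtain ⟨b1, b2, b3⟩ := h2
      exact ⟨a1.trans b1.symm, a2.trans b2.symm, a3.trans b3.symm⟩
  | l :: w, hg, x, s, X, S, A, X', S', A', h1, h2 => by
      obtain ⟨x1, s1, a1, a2, a3⟩ := h1
      obtain ⟨y1, t1, b1, b2, b3⟩ := h2
      have hgl : Good T e l := hg l (by simp)
      have hh := hgl.half x s1 t1
      have e1 : s1 = t1 := by
        have h3 : l.gx x s1 - l.gx x t1 = -(s1 - t1) := by linarith
        rw [h3, abs_neg] at hh
        have : |s1 - t1| = 0 := le_antisymm (by linarith) (abs_nonneg _)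
        have := abs_eq_zero.1 this
        linarith
      subst e1
      have e2 : x1 = y1 := by rw [a2, b2]
      subst e2
      obtain ⟨c1, c2, c3⟩ := orb_unique T e w (fun m hm => hg m (by simp [hm])) _ _ _ _ _ _ _ _
        a3 b3
      exact ⟨c1, c2, by linarith⟩

theorem t_orb : S_orb := by
  refine ⟨?_, ?_⟩
  · intro b w ζ hc
    obtain ⟨hX, hS⟩ := hc
    have h := crit_cr w b ζ (by
      intro i hi
      have h := hX i hi.le
      simp only [gradX, if_pos hi, sm] at h
      exact h) hS
    have h2 := cr_orb b w b ζ h.1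
    have h3 : fin b w ζ = b := by
      rw [h.2]
      have h4 := hX w.length le_rfl
      simp only [gradX, lt_irrefl, if_false, sm] at h4
      linarith
    rw [h3] at h2
    exact h2
  · intro T e w hg x s X S A X' S' A' h1 h2
    exact orb_unique T e w hg x s X S A X' S' A' h1 h2

end Pool.Agent.W293.DP
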